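import Mathlib
import Pool.Agent.H78.Frus3

/-!
# The frustration index of signed subcubic graphs of girth at least five

Every signed simple graph `(G, σ)` with all degrees at most three and girth at least five has
frustration index at most `3 v(G) / 10`.  (The graph need not be connected.)

Proof.  Take a signature with the fewest negative edges among all switchings.  Its negative edges
form a matching `M`.  Call a vertex covered if it is on an edge of `M` and free otherwise; a link is
an edge outside `M` with two covered ends.  By minimality every covered vertex is on at most one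
link, and the ends of links have degree three.  Every covered vertex asks its free neighbours for a
total charge of two: one from each if it has two, two if it has only one.  A free vertex that is
asked for four (the most possible) lies on a cycle of length five together with two links; minimality
of the signatures obtained by switching at the ends of links shows that its free neighbour can give
one unit of charge to it.  So `2 * (number of covered vertices) ≤ 3 * (number of free vertices)`.
-/

set_option autoImplicit false

namespace Pool.Agent.Results.MP_c06078_co.ThreeTenths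

/-- The edge cut `[X, Xᶜ]`: the pairs with exactly one element in `X`. -/
def cut {V : Type*} (X : Set V) : Set (Sym2 V) := {e | ∃ x ∈ X, ∃ y ∉ X, e = s(x, y)}

open Classical in
/-- Switching at the edge cut `[X, Xᶜ]`: the signs of all edges of the cut are reversed. -/
noncomputable def switch {V : Type*} (σ : Sym2 V → ℤˣ) (X : Set V) : Sym2 V → ℤˣ :=
  fun e => if e ∈ cut X then -σ e else σ e

/-- The signatures `σ` and `τ` of `G` (only their values on the edges of `G` matter) are switching
equivalent: `τ` arises from `σ` by switching at some edge cut. -/
def SwitchEquiv {V : Type*} (G : SimpleGraph V) (σ τ : Sym2 V → ℤˣ) : Prop :=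
  ∃ X : Set V, ∀ e ∈ G.edgeSet, τ e = switch σ X e

/-- The frustration index: the least number of negative edges of `G` over all signatures that are
switching equivalent to `σ`. -/
noncomputable def frustrationIndex {V : Type*} (G : SimpleGraph V) (σ : Sym2 V → ℤˣ) : ℕ :=
  sInf {k | ∃ τ, SwitchEquiv G σ τ ∧ {e ∈ G.edgeSet | τ e = -1}.ncard = k}

open Pool.Agent.H78.Frus Finset

lemma mem_cut {V : Type*} (X : Set V) (x y : V) :
    s(x, y) ∈ cut X ↔ ¬ (x ∈ X ↔ y ∈ X) := by
  simp only [cut, Set.mem_ofPred_eq]
  constructor
  · rintro ⟨a, ha, b, hb, h⟩
    rw [Sym2.eq_iff] at h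
    rcases h with ⟨rfl, rfl⟩ | ⟨rfl, rfl⟩ <;> tauto
  · intro h
    by_cases hx : x ∈ X
    · exact ⟨x, hx, y, by tauto, rfl⟩
    · exact ⟨y, by tauto, x, hx, Sym2.eq_swap⟩

/-- **The frustration index of signed subcubic graphs of girth at least five.**  If all degrees of
the simple graph `G` are at most three and its girth is at least five, then
`F(G, σ) ≤ 3 v(G) / 10` for every signature `σ`. -/
theorem result (V : Type*) [Fintype V] (G : SimpleGraph V)
    (hdeg : ∀ v, (G.neighborSet v).ncard ≤ 3) (hgirth : 5 ≤ G.egirth) (σ : Sym2 V → ℤˣ) :
    (frustrationIndex G σ : ℝ) ≤ 3 / 10 * Fintype.card V := by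
  classical
  -- the hypotheses on the graph
  have hle := SimpleGraph.le_egirth.1 hgirth
  have H : Hyp G := by
    refine ⟨fun v => ?_, fun a b c hab hbc hca => ?_, fun a b c d hab hbc hcd hda hac hbd => ?_⟩
    · have := hdeg v
      rwa [Set.ncard_eq_toFinset_card', Set.toFinset_card, SimpleGraph.card_neighborSet_eq_degree]
        at this
    · have hne1 := hab.ne
      have hne2 := hbc.ne
      have hne3 := hca.ne
      have := hle a (.cons hab (.cons hbc (.cons hca .nil))) (by
        simp [SimpleGraph.Walk.isCycle_def, SimpleGraph.Walk.isTrail_def]
        tauto)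
      simp at this
      norm_num at this
    · have hne1 := hab.ne
      have hne2 := hbc.ne
      have hne3 := hcd.ne
      have hne4 := hda.ne
      have := hle a (.cons hab (.cons hbc (.cons hcd (.cons hda .nil)))) (by
        simp [SimpleGraph.Walk.isCycle_def, SimpleGraph.Walk.isTrail_def]
        tauto)
      simp at this
      norm_num at this
  -- signed adjacency matrices
  let w0 : V → V → ℤ := fun x y => if G.Adj x y then ((σ s(x, y) : ℤˣ) : ℤ) else 0
  let c : Finset V → V → ℤ := fun X v => if v ∈ X then -1 else 1
  let wX : Finset V → V → V → ℤ := fun X x y => w0 x y * (c X x * c X y)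
  have hc : ∀ X v, c X v = 1 ∨ c X v = -1 := by
    intro X v
    by_cases h : v ∈ X <;> simp [c, h]
  have hB0 : Basic G w0 := by
    refine ⟨fun x y => ?_, fun x y => ?_, fun x y => ?_⟩
    · simp only [w0, G.adj_comm x y, Sym2.eq_swap (a := x)]
    · by_cases h : G.Adj x y <;> simp [w0, h]
    · by_cases h : G.Adj x y
      · rcases Int.units_eq_one_or (σ s(x, y)) with h' | h' <;> simp [w0, h, h']
      · simp [w0, h]
  obtain ⟨X, -, hX⟩ := Finset.exists_max_image (univ : Finset (Finset V)) (fun X => T (wX X))
    ⟨∅, mem_univ _⟩
  have hM : Mini G (wX X) := by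
    refine ⟨hB0.eqv ⟨c X, hc X, fun x y => rfl⟩, ?_⟩
    rintro w' ⟨χ, h1, h2⟩
    have : w' = wX (univ.filter fun v => c X v * χ v = -1) := by
      funext x y
      have key : ∀ v, c (univ.filter fun v => c X v * χ v = -1) v = c X v * χ v := by
        intro v
        by_cases hh : c X v * χ v = -1
        · have h3 : v ∈ univ.filter fun v => c X v * χ v = -1 := by simp [hh]
          rw [hh]
          simp only [c, h3, if_true]
        · have h4 : c X v * χ v = 1 := by
            rcases hc X v with h | h <;> rcases h1 v with h' | h' <;> rw [h, h'] at hh ⊢ <;>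
              first | rfl | exact absurd rfl hh
          have h3 : v ∉ univ.filter fun v => c X v * χ v = -1 := by simp [hh]
          rw [h4]
          simp only [c, h3, if_false]
      rw [h2]
      simp only [wX, key]
      ring
    rw [this]
    exact hX _ (mem_univ _)
  -- the negative edges
  have hneg : ∀ x y, wX X x y = -1 ↔ (s(x, y) ∈ G.edgeSet ∧ switch σ (X : Set V) s(x, y) = -1) := by
    intro x y
    rw [SimpleGraph.mem_edgeSet]
    by_cases h : G.Adj x y
    · simp only [wX, w0, h, if_true, true_and, switch, mem_cut, Finset.mem_coe, c]
      rcases Int.units_eq_one_or (σ s(x, y)) with h' | h' <;> by_cases hx : x ∈ X <;>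
        by_cases hy : y ∈ X <;> simp [hx, hy, h']
    · simp [wX, w0, h]
  let N : SimpleGraph V :=
    { Adj := fun x y => wX X x y = -1
      symm := ⟨fun x y h => by rw [hM.symm]; exact h⟩
      loopless := ⟨fun x h => by rw [hM.toBasic.self] at h; norm_num at h⟩ }
  have hN : N.edgeSet = {e ∈ G.edgeSet | switch σ (X : Set V) e = -1} := by
    ext e
    induction e using Sym2.ind with
    | _ x y => exact hneg x y
  have hdegN : ∀ x, N.degree x = if Cov (wX X) x then 1 else 0 := by
    intro x
    have h1 : N.degree x = nn (wX X) x := by
      rw [← SimpleGraph.card_neighborFinset_eq_degree, nn]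
      congr 1
      ext y
      simp [N]
    have h2 := cov_iff (w := wX X) x
    have h3 := hM.nn_le H x
    rw [h1]
    split_ifs with hcov
    · have := h2.1 hcov
      omega
    · by_contra hh
      exact hcov (h2.2 (by omega))
  have hsum := N.sum_degrees_eq_twice_card_edges
  simp_rw [hdegN] at hsum
  rw [← Finset.card_filter] at hsum
  have h2 := two_C_le H hM
  have h3 : (C (wX X)).card + (F (wX X)).card = Fintype.card V := by
    rw [C, F, Finset.card_filter_add_card_filter_not, Finset.card_univ]
  have h4 : (C (wX X)).card = 2 * N.edgeFinset.card := by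
    rw [← hsum, C]
  have h5 : frustrationIndex G σ ≤ N.edgeFinset.card := by
    apply Nat.sInf_le
    refine ⟨switch σ (X : Set V), ⟨(X : Set V), fun e _ => rfl⟩, ?_⟩
    rw [← hN, Set.ncard_eq_toFinset_card', SimpleGraph.edgeFinset]
  have h6 : 10 * frustrationIndex G σ ≤ 3 * Fintype.card V := by omega
  have h7 : (10 : ℝ) * frustrationIndex G σ ≤ 3 * Fintype.card V := by exact_mod_cast h6
  linarith

end Pool.Agent.Results.MP_c06078_co.ThreeTenths
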